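import Mathlib

open Metric Set Filter Topology
open scoped ZeroAtInfty BoundedContinuousFunction

namespace Pool.Agent.Results.MP_4410f0_an.SmallSlices

/-- `W` is a relatively weakly open subset of the closed unit ball `B_X`: it is `U ∩ B_X` with
`U` open in the weak topology of `X`. -/
def IsRelWeaklyOpen (X : Type*) [NormedAddCommGroup X] [NormedSpace ℝ X] (W : Set X) : Prop :=
  ∃ U : Set (WeakSpace ℝ X), IsOpen U ∧ W = (toWeakSpace ℝ X) ⁻¹' U ∩ closedBall (0 : X) 1

/-- The Daugavet index of thickness `T(X)`: the infimum of all `r > 0` such that some nonempty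
relatively weakly open subset of the unit ball lies in the ball of radius `r` centred at some
point of the unit sphere. -/
noncomputable def daugavetIndex (X : Type*) [NormedAddCommGroup X] [NormedSpace ℝ X] : ℝ :=
  sInf {r : ℝ | 0 < r ∧ ∃ x : X, ‖x‖ = 1 ∧
    ∃ W : Set X, IsRelWeaklyOpen X W ∧ W.Nonempty ∧ W ⊆ closedBall x r}

/-- The slice `S(B_X, φ, α) = {x ∈ B_X : φ x > 1 - α}`. -/
def slice {X : Type*} [NormedAddCommGroup X] [NormedSpace ℝ X] (φ : StrongDual ℝ X) (α : ℝ) : Set X :=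
  {x : X | ‖x‖ ≤ 1 ∧ 1 - α < φ x}

theorem slice_isRelWeaklyOpen {X : Type*} [NormedAddCommGroup X] [NormedSpace ℝ X]
    (φ : StrongDual ℝ X) (α : ℝ) : IsRelWeaklyOpen X (slice φ α) := by
  refine ⟨{x : WeakSpace ℝ X | 1 - α < φ ((toWeakSpace ℝ X).symm x)}, ?_, ?_⟩
  · have : Continuous fun x : WeakSpace ℝ X => φ ((toWeakSpace ℝ X).symm x) :=
      WeakBilin.eval_continuous _ φ
    exact isOpen_lt continuous_const this
  · ext x
    simp [slice, and_comm]

noncomputable def diffMap : (C₀(ℕ, ℝ) × ℝ) →L[ℝ] (ℕ →ᵇ ℝ) :=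
  LinearMap.mkContinuous
    { toFun := fun p => p.1.toBCF - BoundedContinuousFunction.const ℕ p.2
      map_add' := by
        intro p q
        ext n
        simp
        ring
      map_smul' := by
        intro c p
        ext n
        simp
        ring } 2 (by
      intro p
      refine (norm_sub_le _ _).trans ?_
      have h1 : ‖p.1.toBCF‖ ≤ ‖p‖ := by
        rw [ZeroAtInftyContinuousMap.norm_toBCF_eq_norm]
        exact norm_fst_le p
      have h2 : ‖BoundedContinuousFunction.const ℕ p.2‖ ≤ ‖p‖ :=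
        (BoundedContinuousFunction.norm_const_le p.2).trans (norm_snd_le p)
      linarith)

theorem diffMap_apply (p : C₀(ℕ, ℝ) × ℝ) (n : ℕ) : diffMap p n = p.1 n - p.2 := rfl

/-- The graph of `diffMap`. -/
noncomputable def GG : Submodule ℝ ((C₀(ℕ, ℝ) × ℝ) × (ℕ →ᵇ ℝ)) :=
  LinearMap.graph (diffMap : (C₀(ℕ, ℝ) × ℝ) →ₗ[ℝ] (ℕ →ᵇ ℝ))

theorem GG_closed : IsClosed (GG : Set ((C₀(ℕ, ℝ) × ℝ) × (ℕ →ᵇ ℝ))) := by
  have : (GG : Set ((C₀(ℕ, ℝ) × ℝ) × (ℕ →ᵇ ℝ))) = {p | p.2 = diffMap p.1} := by
    ext p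
    simp [GG, LinearMap.mem_graph_iff]
  rw [this]
  exact isClosed_eq continuous_snd (diffMap.continuous.comp continuous_fst)

/-- The space. -/
def XX : Type := GG

noncomputable instance : NormedAddCommGroup XX := inferInstanceAs (NormedAddCommGroup GG)

noncomputable instance : NormedSpace ℝ XX := inferInstanceAs (NormedSpace ℝ GG)

noncomputable instance : CompleteSpace XX := GG_closed.completeSpace_coe

/-- element of `XX` with given data -/
noncomputable def mk (z : C₀(ℕ, ℝ)) (t : ℝ) : XX := ⟨((z, t), diffMap (z, t)), by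
  simp [GG, LinearMap.mem_graph_iff]⟩

theorem eq_mk (x : XX) : x = mk x.1.1.1 x.1.1.2 := by
  apply Subtype.ext
  have h := x.2
  simp only [GG, LinearMap.mem_graph_iff] at h
  refine Prod.ext rfl ?_
  exact h

theorem mk_add (z w : C₀(ℕ, ℝ)) (t s : ℝ) : mk z t + mk w s = mk (z + w) (t + s) := by
  apply Subtype.ext
  refine Prod.ext rfl ?_
  exact (diffMap.map_add (z, t) (w, s)).symm

theorem mk_sub (z w : C₀(ℕ, ℝ)) (t s : ℝ) : mk z t - mk w s = mk (z - w) (t - s) := by
  apply Subtype.ext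
  refine Prod.ext rfl ?_
  exact (diffMap.map_sub (z, t) (w, s)).symm

theorem mk_smul (c : ℝ) (z : C₀(ℕ, ℝ)) (t : ℝ) : c • mk z t = mk (c • z) (c * t) := by
  apply Subtype.ext
  refine Prod.ext rfl ?_
  exact (diffMap.map_smul c (z, t)).symm

theorem norm_mk_le_iff (z : C₀(ℕ, ℝ)) (t : ℝ) {r : ℝ} (hr : 0 ≤ r) :
    ‖mk z t‖ ≤ r ↔ (∀ n, |z n| ≤ r) ∧ |t| ≤ r ∧ ∀ n, |z n - t| ≤ r := by
  have h1 : ‖mk z t‖ = max (max ‖z‖ ‖t‖) ‖diffMap (z, t)‖ := rfl
  rw [h1, max_le_iff, max_le_iff, ← ZeroAtInftyContinuousMap.norm_toBCF_eq_norm,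
    BoundedContinuousFunction.norm_le hr, BoundedContinuousFunction.norm_le hr]
  simp only [diffMap_apply, Real.norm_eq_abs, and_assoc]
  rfl

/-- unit vectors in c0, scaled -/
noncomputable def ee (n : ℕ) (c : ℝ) : C₀(ℕ, ℝ) where
  toFun := fun k => if k = n then c else 0
  continuous_toFun := continuous_of_discreteTopology
  zero_at_infty' := by
    rw [cocompact_eq_cofinite, Nat.cofinite_eq_atTop]
    refine tendsto_const_nhds.congr' ?_
    filter_upwards [eventually_gt_atTop n] with k hk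
    simp [hk.ne']

theorem ee_apply (n : ℕ) (c : ℝ) (k : ℕ) : ee n c k = if k = n then c else 0 := rfl

theorem sum_mk {ι : Type*} (s : Finset ι) (f : ι → C₀(ℕ, ℝ)) :
    ∑ i ∈ s, mk (f i) 0 = mk (∑ i ∈ s, f i) 0 := by
  classical
  induction s using Finset.induction_on with
  | empty =>
    simp
    apply Subtype.ext
    refine Prod.ext rfl ?_
    exact (diffMap.map_zero).symm
  | insert a s ha ih =>
    rw [Finset.sum_insert ha, Finset.sum_insert ha, ih, mk_add, add_zero]

theorem coe_sum_apply {ι : Type*} (s : Finset ι) (f : ι → C₀(ℕ, ℝ)) (k : ℕ) :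
    (∑ i ∈ s, f i) k = ∑ i ∈ s, f i k := by
  classical
  induction s using Finset.induction_on with
  | empty => simp
  | insert a s ha ih =>
    rw [Finset.sum_insert ha, Finset.sum_insert ha, ← ih]; rfl

/-- Weak null-ness of bounded coordinate vectors. -/
theorem tendsto_ee (φ : StrongDual ℝ XX) (c : ℕ → ℝ) (C : ℝ) (hC : ∀ n, |c n| ≤ C) :
    Tendsto (fun n => φ (mk (ee n (c n)) 0)) atTop (𝓝 0) := by
  have hC0 : 0 ≤ C := (abs_nonneg _).trans (hC 0)
  have hsum : Summable fun n => |φ (mk (ee n (c n)) 0)| := by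
    refine summable_of_sum_le (c := ‖φ‖ * C) (fun n => abs_nonneg _) ?_
    intro s
    have h1 : ∀ n, |φ (mk (ee n (c n)) 0)|
        = φ ((SignType.sign (φ (mk (ee n (c n)) 0)) : ℝ) • mk (ee n (c n)) 0) := by
      intro n
      rw [map_smul, smul_eq_mul, sign_mul_self]
    rw [Finset.sum_congr rfl fun n _ => h1 n, ← map_sum]
    refine (le_abs_self _).trans ((φ.le_opNorm _).trans ?_)
    gcongr
    simp only [mk_smul, mul_zero]
    rw [sum_mk, norm_mk_le_iff _ _ hC0]
    have key : ∀ k, |(∑ n ∈ s, (SignType.sign (φ (mk (ee n (c n)) 0)) : ℝ) • ee n (c n)) k| ≤ C := by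
      intro k
      rw [coe_sum_apply]
      simp only [ZeroAtInftyContinuousMap.smul_apply, ee_apply, smul_eq_mul, mul_ite, mul_zero]
      rw [Finset.sum_ite_eq]
      split_ifs
      · rw [abs_mul]
        refine le_trans ?_ (hC k)
        refine mul_le_of_le_one_left (abs_nonneg _) ?_
        rcases SignType.sign (φ (mk (ee k (c k)) 0)) with _ | _ | _ <;> simp
      · simpa using hC0
    exact ⟨key, by simpa using hC0, by simpa using key⟩
  have := hsum.tendsto_atTop_zero
  rwa [tendsto_zero_iff_abs_tendsto_zero]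

theorem weak_tendsto_of {X : Type*} [NormedAddCommGroup X] [NormedSpace ℝ X] (f : ℕ → X) (x : X)
    (h : ∀ φ : StrongDual ℝ X, Tendsto (fun n => φ (f n)) atTop (𝓝 (φ x))) :
    Tendsto (fun n => toWeakSpace ℝ X (f n)) atTop (𝓝 (toWeakSpace ℝ X x)) := by
  have hind : Topology.IsInducing
      (fun (x : WeakSpace ℝ X) (φ : StrongDual ℝ X) => φ ((toWeakSpace ℝ X).symm x)) := ⟨rfl⟩
  rw [hind.tendsto_nhds_iff, tendsto_pi_nhds]
  intro φ
  exact h φ

/-- Every relatively weakly open set that contains a point contains far-away points. -/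
theorem far (W : Set XX) (hW : IsRelWeaklyOpen XX W) (hne : W.Nonempty) (x : XX) (r : ℝ) (hr : r < 1) :
    ¬ W ⊆ closedBall x r := by
  intro hsub
  obtain ⟨U, hU, rfl⟩ := hW
  obtain ⟨p, hpU, hpB⟩ := hne
  rw [mem_closedBall_zero_iff, eq_mk p, norm_mk_le_iff _ _ zero_le_one] at hpB
  obtain ⟨hz, ht, hd⟩ := hpB
  set z := p.1.1.1 with hzdef
  set t := p.1.1.2 with htdef
  set σ : ℝ := if 0 ≤ t then 1 else -1 with hσ
  have hσ1 : |σ| = 1 := by
    rw [hσ]; split_ifs <;> simp
  have hσt : |σ - t| ≤ 1 := by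
    rw [abs_le] at ht ⊢
    rw [hσ]; split_ifs with h
    · constructor <;> linarith
    · rw [not_le] at h
      constructor <;> linarith
  -- the modified points
  set c : ℕ → ℝ := fun n => σ - z n with hc
  set q : ℕ → XX := fun n => p + mk (ee n (c n)) 0 with hq
  have hqmk : ∀ n, q n = mk (z + ee n (c n)) t := by
    intro n
    rw [hq]
    simp only
    rw [eq_mk p, mk_add, add_zero]
  have hcoord : ∀ n k, (z + ee n (c n)) k = if k = n then σ else z k := by
    intro n k
    rw [ZeroAtInftyContinuousMap.add_apply, ee_apply]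
    split_ifs with h
    · rw [h, hc]; ring
    · ring
  have hqB : ∀ n, ‖q n‖ ≤ 1 := by
    intro n
    rw [hqmk, norm_mk_le_iff _ _ zero_le_one]
    refine ⟨fun k => ?_, ht, fun k => ?_⟩
    · rw [hcoord]; split_ifs
      · exact hσ1.le
      · exact hz k
    · rw [hcoord]; split_ifs
      · exact hσt
      · exact hd k
  have hlim : Tendsto (fun n => toWeakSpace ℝ XX (q n)) atTop (𝓝 (toWeakSpace ℝ XX p)) := by
    refine weak_tendsto_of _ _ fun φ => ?_
    have h1 := tendsto_ee φ c 2 (fun n => by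
      rw [hc]
      refine (abs_sub _ _).trans ?_
      linarith [hσ1, hz n])
    have h2 : Tendsto (fun n => φ p + φ (mk (ee n (c n)) 0)) atTop (𝓝 (φ p + 0)) :=
      tendsto_const_nhds.add h1
    rw [add_zero] at h2
    refine h2.congr fun n => ?_
    rw [hq, map_add]
  have hev : ∀ᶠ n in atTop, toWeakSpace ℝ XX (q n) ∈ U := hlim.eventually (hU.mem_nhds hpU)
  -- the distance from the centre
  have hx0 : Tendsto (fun n => |σ - x.1.1.1 n|) atTop (𝓝 1) := by
    have h0 : Tendsto (fun n => x.1.1.1 n) atTop (𝓝 0) := by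
      have := x.1.1.1.zero_at_infty'
      rwa [cocompact_eq_cofinite, Nat.cofinite_eq_atTop] at this
    have := ((tendsto_const_nhds (x := σ)).sub h0).abs
    rwa [sub_zero, hσ1] at this
  have hev2 : ∀ᶠ n in atTop, r < |σ - x.1.1.1 n| := hx0.eventually (lt_mem_nhds hr)
  obtain ⟨n, hn1, hn2⟩ := (hev.and hev2).exists
  have hmem : q n ∈ closedBall x r := hsub ⟨hn1, mem_closedBall_zero_iff.2 (hqB n)⟩
  rw [mem_closedBall, dist_eq_norm] at hmem
  have hr0 : 0 ≤ r := (norm_nonneg _).trans hmem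
  rw [hqmk, eq_mk x, mk_sub, norm_mk_le_iff _ _ hr0] at hmem
  have := hmem.1 n
  rw [ZeroAtInftyContinuousMap.sub_apply, hcoord, if_pos rfl] at this
  exact absurd this (not_le.2 hn2)

/-- the height functional -/
noncomputable def height : StrongDual ℝ XX :=
  LinearMap.mkContinuous
    { toFun := fun x : XX => x.1.1.2
      map_add' := fun _ _ => rfl
      map_smul' := fun _ _ => rfl } 1 (fun x => by
        rw [one_mul]
        exact ((norm_snd_le x.1.1).trans (norm_fst_le x.1)))

theorem height_mk (z : C₀(ℕ, ℝ)) (t : ℝ) : height (mk z t) = t := rfl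

theorem norm_top : ‖mk 0 1‖ = 1 := by
  apply le_antisymm
  · rw [norm_mk_le_iff _ _ zero_le_one]
    simp
  · have h := (norm_mk_le_iff 0 1 (norm_nonneg (mk 0 1))).1 le_rfl
    simpa using h.2.1

theorem norm_height : ‖height‖ = 1 := by
  apply le_antisymm
  · exact LinearMap.mkContinuous_norm_le _ zero_le_one _
  · have := height.le_opNorm (mk 0 1)
    rw [norm_top, height_mk, mul_one] at this
    simpa using this

theorem slice_sub (α : ℝ) (hα : 0 < α) : slice height α ⊆ closedBall (mk 0 1) (1 + α) := by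
  intro x hx
  obtain ⟨h1, h2⟩ := hx
  rw [eq_mk x] at h1 h2 ⊢
  rw [height_mk] at h2
  rw [norm_mk_le_iff _ _ zero_le_one] at h1
  obtain ⟨hz, ht, hd⟩ := h1
  rw [mem_closedBall, dist_eq_norm, mk_sub, norm_mk_le_iff _ _ (by linarith)]
  simp only [abs_le, sub_zero] at *
  refine ⟨fun n => ?_, ?_, fun n => ?_⟩
  · have := hz n; constructor <;> linarith
  · constructor <;> linarith
  · have := hz n; have := hd n; constructor <;> linarith

theorem diam_slice (α : ℝ) (hα : 0 < α) : Metric.diam (slice height α) ≤ 1 + 2 * α := by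
  refine Metric.diam_le_of_forall_dist_le (by linarith) ?_
  intro x hx y hy
  obtain ⟨h1, h2⟩ := hx
  obtain ⟨h3, h4⟩ := hy
  rw [eq_mk x] at h1 h2 ⊢
  rw [eq_mk y] at h3 h4 ⊢
  rw [height_mk] at h2 h4
  rw [norm_mk_le_iff _ _ zero_le_one] at h1 h3
  obtain ⟨hz, ht, hd⟩ := h1
  obtain ⟨hz', ht', hd'⟩ := h3
  rw [dist_eq_norm, mk_sub, norm_mk_le_iff _ _ (by linarith)]
  simp only [abs_le, ZeroAtInftyContinuousMap.sub_apply] at *
  refine ⟨fun n => ?_, ?_, fun n => ?_⟩
  · have := hz n; have := hz' n; have := hd n; have := hd' n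
    constructor <;> linarith
  · constructor <;> linarith
  · have := hz n; have := hz' n; have := hd n; have := hd' n
    constructor <;> linarith

theorem slice_nonempty (α : ℝ) (hα : 0 < α) : (slice height α).Nonempty :=
  ⟨mk 0 1, norm_top.le, by rw [height_mk]; linarith⟩

theorem index_eq_one : daugavetIndex XX = 1 := by
  have hbdd : BddBelow {r : ℝ | 0 < r ∧ ∃ x : XX, ‖x‖ = 1 ∧
    ∃ W : Set XX, IsRelWeaklyOpen XX W ∧ W.Nonempty ∧ W ⊆ closedBall x r} :=
    ⟨0, fun r hr => hr.1.le⟩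
  apply le_antisymm
  · refine le_of_forall_pos_le_add fun ε hε => ?_
    refine csInf_le hbdd ⟨by linarith, mk 0 1, norm_top, slice height ε,
      slice_isRelWeaklyOpen _ _, slice_nonempty ε hε, slice_sub ε hε⟩
  · refine le_csInf ⟨1 + 1, by norm_num, mk 0 1, norm_top, slice height 1,
      slice_isRelWeaklyOpen _ _, slice_nonempty 1 one_pos, slice_sub 1 one_pos⟩ ?_
    rintro r ⟨-, x, -, W, hW, hne, hsub⟩
    by_contra hr
    exact far W hW hne x r (not_le.1 hr) hsub

/-- **Negative answer to Q1.** There is a real Banach space `X` with `T(X) = 1` (in which,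
moreover, no nonempty relatively weakly open subset of the unit ball is contained in a ball of
radius less than `1`, whatever the centre), but in which the unit ball has, for every `ε > 0`, a
(nonempty, relatively weakly open) slice of diameter less than `1 + ε`. -/
theorem result : ∃ (X : Type) (_ : NormedAddCommGroup X) (_ : NormedSpace ℝ X),
    CompleteSpace X ∧ daugavetIndex X = 1 ∧
    (∀ W : Set X, IsRelWeaklyOpen X W → W.Nonempty → ∀ x : X, ∀ r < 1, ¬ W ⊆ closedBall x r) ∧
    ∀ ε > 0, ∃ φ : StrongDual ℝ X, ‖φ‖ = 1 ∧ ∃ α > 0, IsRelWeaklyOpen X (slice φ α) ∧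
      (slice φ α).Nonempty ∧ Metric.diam (slice φ α) < 1 + ε := by
  refine ⟨XX, inferInstance, inferInstance, inferInstance, index_eq_one, far, ?_⟩
  intro ε hε
  refine ⟨height, norm_height, ε / 4, by linarith, slice_isRelWeaklyOpen _ _,
    slice_nonempty _ (by linarith), ?_⟩
  have := diam_slice (ε / 4) (by linarith)
  linarith

end Pool.Agent.Results.MP_4410f0_an.SmallSlices
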